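import Mathlib

set_option autoImplicit false

namespace Pool.Agent.H.MP_311bfa_al

open Filter Topology MonoidAlgebra

theorem noext {R G T : Type} [Ring R] [TopologicalSpace R] [Monoid G] (h m : ℕ → G) (z : G)
    (hz : z ≠ 1) (hm : ∀ i j, h i * m j = if i = j then 1 else z) (h1 : (1 : R) ≠ 0)
    (l : Filter T) [l.NeBot]
    (H : ∀ U ∈ 𝓝 (0 : R), ∃ (k : ℕ) (a c : ℕ → T → R) (b : T → R),
      (∀ i, Tendsto (a i) l (𝓝 0)) ∧ (∀ i, Tendsto (c i) l (𝓝 0)) ∧
      ∀ᶠ t in l, b t ∈ U ∧ ∑ i ∈ Finset.range k, a i t * b t * c i t = 1)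
    [TopologicalSpace (MonoidAlgebra R G)] [IsTopologicalRing (MonoidAlgebra R G)]
    [T2Space (MonoidAlgebra R G)] (hc : Continuous (single 1 : R → MonoidAlgebra R G)) : False := by
  classical
  have hg : ∀ g : G, Continuous (single g : R → MonoidAlgebra R G) := fun g =>
    (hc.mul (continuous_const (y := single g 1))).congr fun r => by simp [single_mul_single]
  have hs : ∀ (k : ℕ) (g : ℕ → G) (a : ℕ → T → R), (∀ i, Tendsto (a i) l (𝓝 0)) →
      Tendsto (fun t => ∑ i ∈ Finset.range k, single (g i) (a i t)) l (𝓝 0) := fun k g a ha => by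
    simpa using tendsto_finsetSum (Finset.range k) fun i _ => ((hg (g i)).tendsto 0).comp (ha i)
  have key : (single 1 1 - single z 1 : MonoidAlgebra R G) = 0 := by
    apply Specializes.eq
    rw [specializes_iff_pure]
    intro W hW
    have hF : Continuous fun p : MonoidAlgebra R G × (MonoidAlgebra R G × MonoidAlgebra R G) ×
        (MonoidAlgebra R G × MonoidAlgebra R G) =>
        p.2.1.1 * p.1 * p.2.1.2 - p.2.2.1 * p.1 * p.2.2.2 := by fun_prop
    have h2 := hF.tendsto (0, (0, 0), (0, 0)) (by simpa using hW)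
    rw [nhds_prod_eq, mem_map, mem_prod_iff] at h2
    obtain ⟨W1, w1, W2, w2, w⟩ := h2
    obtain ⟨k, a, c, b, ha, hc', hb⟩ := H _ ((hc.tendsto 0) (by simpa using w1))
    have h3 := (((hs k h a ha).prodMk_nhds (hs k m c hc')).prodMk_nhds
      ((hs k (fun _ => z) a ha).prodMk_nhds (hs k (fun _ => 1) c hc'))) w2
    obtain ⟨t, ⟨t1, t2⟩, t3⟩ := (hb.and h3).exists
    have h4 := w (Set.mk_mem_prod t1 t3)
    simp only [Set.mem_preimage, Finset.sum_mul, Finset.mul_sum, single_mul_single, mul_one, hm,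
      ← Finset.sum_sub_distrib] at h4
    have h5 : ∀ j ∈ Finset.range k, ∑ i ∈ Finset.range k,
        (single (if i = j then 1 else z) (a i t * b t * c j t) - single z (a i t * b t * c j t)) =
        single 1 (a j t * b t * c j t) - single z (a j t * b t * c j t) := fun j hj => by
      rw [Finset.sum_eq_single_of_mem j hj fun i _ hi => by simp [hi], if_pos rfl]
    rw [Finset.sum_congr rfl h5, Finset.sum_sub_distrib] at h4
    have h6 : ∀ g : G, ∑ j ∈ Finset.range k, single g (a j t * b t * c j t) = single g 1 :=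
      fun g => t2 ▸ (map_sum (singleAddHom g) _ _).symm
    rwa [h6, h6] at h4
  have := congrArg (fun x : MonoidAlgebra R G => x.coeff 1) (sub_eq_zero.1 key)
  simp [hz] at this
  exact h1 this

attribute [local instance] Matrix.linftyOpNormedRing Matrix.linftyOpNormedAlgebra

theorem rank_add {n : ℕ} (A B : Matrix (Fin n) (Fin n) ℝ) : (A + B).rank ≤ A.rank + B.rank := by
  unfold Matrix.rank
  rw [Matrix.mulVecLin_add]
  exact (Submodule.finrank_mono (LinearMap.range_add_le _ _)).trans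
    (Submodule.finrank_add_le_finrank_add_finrank _ _)

/-- sequences of real matrices -/
def P : Type := ∀ n : ℕ, Matrix (Fin n) (Fin n) ℝ

instance : Ring P := inferInstanceAs (Ring (∀ n : ℕ, Matrix (Fin n) (Fin n) ℝ))

theorem add_ap (x y : P) (n : ℕ) : (x + y) n = x n + y n := rfl
theorem mul_ap (x y : P) (n : ℕ) : (x * y) n = x n * y n := rfl
theorem neg_ap (x : P) (n : ℕ) : (-x) n = -x n := rfl
theorem zero_ap (n : ℕ) : (0 : P) n = 0 := rfl
theorem one_ap (n : ℕ) : (1 : P) n = 1 := rfl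

/-- small rank plus small norm -/
def U (k : ℕ) (w : ℕ → ℝ) : Set P :=
  {z | ∃ x y : P, z = x + y ∧ (∀ᶠ n in atTop, k * (x n).rank ≤ n) ∧ ∀ n, ‖y n‖ ≤ w n}

theorem U_mono {k k' : ℕ} {w w' : ℕ → ℝ} (h : k ≤ k') (h' : ∀ n, w' n ≤ w n) : U k' w' ⊆ U k w := by
  rintro _ ⟨x, y, rfl, h1, h2⟩
  exact ⟨x, y, rfl, h1.mono fun n hn => (Nat.mul_le_mul_right _ h).trans hn,
    fun n => (h2 n).trans (h' n)⟩

/-- the measure type ring topology -/
@[reducible] noncomputable def fb : RingFilterBasis P where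
  sets := {S | ∃ k w, (∀ n, 0 < w n) ∧ S = U k w}
  nonempty := ⟨_, 0, fun _ => 1, fun _ => one_pos, rfl⟩
  inter_sets := by
    rintro _ _ ⟨k, w, h, rfl⟩ ⟨k', w', h', rfl⟩
    exact ⟨_, ⟨max k k', fun n => min (w n) (w' n), fun n => lt_min (h n) (h' n), rfl⟩,
      Set.subset_inter (U_mono (le_max_left _ _) fun _ => min_le_left _ _)
        (U_mono (le_max_right _ _) fun _ => min_le_right _ _)⟩
  zero' := by
    rintro _ ⟨k, w, h, rfl⟩
    exact ⟨0, 0, by simp, by simp [zero_ap], fun n => by simpa [zero_ap] using (h n).le⟩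
  add' := by
    rintro _ ⟨k, w, h, rfl⟩
    refine ⟨_, ⟨2 * k, fun n => w n / 2, fun n => half_pos (h n), rfl⟩, ?_⟩
    rintro _ ⟨_, ⟨x, y, rfl, h1, h2⟩, _, ⟨x', y', rfl, h3, h4⟩, rfl⟩
    refine ⟨x + x', y + y', add_add_add_comm _ _ _ _, (h1.and h3).mono fun n hn => ?_, fun n => ?_⟩
    · have := Nat.mul_le_mul_left k (rank_add (x n) (x' n))
      rw [add_ap]
      nlinarith [hn.1, hn.2]
    · have := norm_add_le (y n) (y' n)
      rw [add_ap]
      linarith [h2 n, h4 n]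
  neg' := by
    rintro _ ⟨k, w, h, rfl⟩
    refine ⟨_, ⟨k, w, h, rfl⟩, ?_⟩
    rintro _ ⟨x, y, rfl, h1, h2⟩
    refine ⟨-1 * x, -y, by rw [neg_one_mul]; exact neg_add _ _, h1.mono fun n hn => ?_, fun n => ?_⟩
    · rw [mul_ap]
      exact (Nat.mul_le_mul_left k (Matrix.rank_mul_le_right _ _)).trans hn
    · rw [neg_ap, norm_neg]
      exact h2 n
  conj' := fun x U hU => ⟨U, hU, fun y hy => by simpa using hy⟩
  mul' := by
    rintro _ ⟨k, w, h, rfl⟩
    refine ⟨_, ⟨2 * k, fun n => min (w n) 1, fun n => lt_min (h n) one_pos, rfl⟩, ?_⟩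
    rintro _ ⟨_, ⟨x, y, rfl, h1, h2⟩, _, ⟨x', y', rfl, h3, h4⟩, rfl⟩
    refine ⟨x * (x' + y') + y * x', y * y', by noncomm_ring, (h1.and h3).mono fun n hn => ?_,
      fun n => ?_⟩
    · have := Nat.mul_le_mul_left k ((rank_add (x n * (x' + y') n) (y n * x' n)).trans
        (Nat.add_le_add (Matrix.rank_mul_le_left _ _) (Matrix.rank_mul_le_right _ _)))
      rw [add_ap, mul_ap, mul_ap]
      nlinarith [hn.1, hn.2]
    · rw [mul_ap]
      refine (norm_mul_le _ _).trans ?_
      have a1 := (h2 n).trans (min_le_left _ _)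
      have a2 := (h4 n).trans (min_le_right _ _)
      nlinarith [norm_nonneg (y n), norm_nonneg (y' n)]
  mul_left' := by
    rintro z _ ⟨k, w, h, rfl⟩
    refine ⟨_, ⟨k, fun n => w n / (‖z n‖ + 1), fun n => div_pos (h n) (by positivity), rfl⟩, ?_⟩
    rintro _ ⟨x, y, rfl, h1, h2⟩
    refine ⟨z * x, z * y, mul_add _ _ _, h1.mono fun n hn =>
      (Nat.mul_le_mul_left k (Matrix.rank_mul_le_right (z n) (x n))).trans hn, fun n => ?_⟩
    have a1 := (le_div_iff₀ (by positivity)).1 (h2 n)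
    rw [mul_ap]
    nlinarith [norm_nonneg (y n), norm_mul_le (z n) (y n)]
  mul_right' := by
    rintro z _ ⟨k, w, h, rfl⟩
    refine ⟨_, ⟨k, fun n => w n / (‖z n‖ + 1), fun n => div_pos (h n) (by positivity), rfl⟩, ?_⟩
    rintro _ ⟨x, y, rfl, h1, h2⟩
    refine ⟨x * z, y * z, add_mul _ _ _, h1.mono fun n hn =>
      (Nat.mul_le_mul_left k (Matrix.rank_mul_le_left (x n) (z n))).trans hn, fun n => ?_⟩
    have a1 := (le_div_iff₀ (by positivity)).1 (h2 n)
    rw [mul_ap]
    nlinarith [norm_nonneg (y n), norm_mul_le (y n) (z n)]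

noncomputable instance : TopologicalSpace P := fb.topology
instance : IsTopologicalRing P := fb.isTopologicalRing

theorem mem_nhds (S : Set P) : S ∈ 𝓝 (0 : P) ↔ ∃ k w, (∀ n, 0 < w n) ∧ U k w ⊆ S := by
  rw [fb.toAddGroupFilterBasis.nhds_zero_hasBasis.mem_iff]
  exact ⟨fun ⟨_, ⟨k, w, h, e⟩, h'⟩ => ⟨k, w, h, e ▸ h'⟩, fun ⟨k, w, h, h'⟩ => ⟨_, ⟨k, w, h, rfl⟩, h'⟩⟩

theorem one_not : (1 : P) ∉ U 2 (fun _ => 1 / 2) := by
  rintro ⟨x, y, e, h1, h2⟩
  obtain ⟨n, a1, a2⟩ := (h1.and (eventually_gt_atTop 0)).exists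
  have e' : x n = 1 - y n := by rw [← one_ap, e, add_ap, add_sub_cancel_right]
  have hu : IsUnit (x n) := by
    rw [← Matrix.mulVec_injective_iff_isUnit]
    refine (injective_iff_map_eq_zero (x n).mulVecLin).2 fun v hv => ?_
    rw [Matrix.mulVecLin_apply, e', Matrix.sub_mulVec, Matrix.one_mulVec, sub_eq_zero] at hv
    have := Matrix.linfty_opNorm_mulVec (y n) v
    rw [← hv] at this
    exact norm_le_zero_iff.1 (by nlinarith [h2 n, norm_nonneg v])
  rw [Matrix.rank_of_isUnit _ hu, Fintype.card_fin] at a1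
  omega

theorem one_ne : (1 : SeparationQuotient P) ≠ 0 := fun h =>
  one_not ((SeparationQuotient.mk_eq_mk.1 h).specializes.mem_open isOpen_interior
    (mem_interior_iff_mem_nhds.2 ((mem_nhds _).2 ⟨2, _, fun _ => one_half_pos, le_rfl⟩))
    |> interior_subset)

/-- small positive scalar sequences -/
def sm : Filter (ℕ → ℝ) where
  sets := {S | ∃ w : ℕ → ℝ, (∀ n, 0 < w n) ∧ ∀ s, (∀ n, 0 < s n ∧ s n ≤ w n) → s ∈ S}
  univ_sets := ⟨fun _ => 1, fun _ => one_pos, fun _ _ => trivial⟩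
  sets_of_superset := fun ⟨w, h, h'⟩ e => ⟨w, h, fun s hs => e (h' s hs)⟩
  inter_sets := fun ⟨w, h, h1⟩ ⟨w', h', h2⟩ => ⟨fun n => min (w n) (w' n),
    fun n => lt_min (h n) (h' n), fun s hs =>
      ⟨h1 s fun n => ⟨(hs n).1, (hs n).2.trans (min_le_left _ _)⟩,
        h2 s fun n => ⟨(hs n).1, (hs n).2.trans (min_le_right _ _)⟩⟩⟩

instance : sm.NeBot := ⟨fun h => by
  obtain ⟨w, h1, h2⟩ : (∅ : Set (ℕ → ℝ)) ∈ sm := h ▸ mem_bot
  exact h2 w fun n => ⟨h1 n, le_rfl⟩⟩

/-- scaling -/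
def sc (z : P) (s : ℕ → ℝ) : P := fun n => s n • z n

theorem sc_tendsto (z : P) : Tendsto (sc z) sm (𝓝 0) := by
  intro S hS
  obtain ⟨k, w, h, h'⟩ := (mem_nhds S).1 hS
  refine ⟨fun n => w n / (‖z n‖ + 1), fun n => div_pos (h n) (by positivity), fun s hs =>
    h' ⟨0, sc z s, by simp, by simp [zero_ap], fun n => ?_⟩⟩
  have a1 := (le_div_iff₀ (by positivity)).1 (hs n).2
  rw [sc, norm_smul, Real.norm_of_nonneg (hs n).1.le]
  nlinarith [(hs n).1]

/-- shift -/
def sh (i : ℕ) : P := fun _ => Matrix.of fun j j' => if j.val = j'.val + i then 1 else 0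

/-- backward shift -/
def sb (i : ℕ) : P := fun n => (sh i n).transpose

/-- projection of small rank -/
def pr (m : ℕ) : P := fun _ => Matrix.diagonal fun j => if j.val % m = 0 then 1 else 0

theorem pr_rank (m n : ℕ) : (pr m n).rank ≤ n / m + 1 := by
  classical
  rw [pr, Matrix.rank_diagonal, ← Fintype.card_fin (n / m + 1)]
  refine Fintype.card_le_of_injective (fun j => ⟨j.1.val / m,
    Nat.lt_succ_of_le (Nat.div_le_div_right j.1.2.le)⟩) ?_
  rintro ⟨j, hj⟩ ⟨j', hj'⟩ h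
  simp only [ne_eq, ite_eq_right_iff, one_ne_zero, imp_false, not_not, Fin.mk.injEq] at hj hj' h
  ext
  simp only
  rw [← Nat.mod_add_div j m, ← Nat.mod_add_div j' m, hj, hj', h]

theorem decomp (m n : ℕ) (hm : 0 < m) :
    ∑ i ∈ Finset.range m, sh i n * pr m n * sb i n = 1 := by
  ext j l
  simp only [Matrix.sum_apply, sb, sh, pr]
  simp only [Matrix.mul_apply (M := _ * _), Matrix.mul_diagonal, Matrix.of_apply,
    Matrix.transpose_apply, Matrix.one_apply]
  have a1 := Nat.mod_add_div j m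
  have a2 : m * (j / m) < n := by have := j.2; omega
  rw [Finset.sum_eq_single_of_mem (j % m) (Finset.mem_range.2 (Nat.mod_lt _ hm)),
    Finset.sum_eq_single_of_mem ⟨m * (j / m), a2⟩ (Finset.mem_univ _)]
  · simp only [Nat.mul_mod_right, if_true, mul_one, Fin.ext_iff]
    rw [if_pos (by omega), one_mul]
    exact if_congr (by omega) rfl rfl
  · intro j' _ h
    rw [if_neg, zero_mul, zero_mul]
    intro e
    exact h (Fin.ext (by simp only; omega))
  · intro i hi h
    refine Finset.sum_eq_zero fun j' _ => ?_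
    split_ifs with c1 c2 <;> try simp
    apply h
    rw [c1, Nat.add_mod, c2, zero_add, Nat.mod_mod, Nat.mod_eq_of_lt (Finset.mem_range.1 hi)]

theorem prop (S : Set P) (hS : S ∈ 𝓝 (0 : P)) : ∃ (k : ℕ) (a c : ℕ → (ℕ → ℝ) → P)
    (b : (ℕ → ℝ) → P), (∀ i, Tendsto (a i) sm (𝓝 0)) ∧ (∀ i, Tendsto (c i) sm (𝓝 0)) ∧
      ∀ᶠ t in sm, b t ∈ S ∧ ∑ i ∈ Finset.range k, a i t * b t * c i t = 1 := by
  obtain ⟨k, w, h, h'⟩ := (mem_nhds S).1 hS
  refine ⟨2 * k + 1, fun i => sc (sh i), fun i => sc (sb i),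
    fun s => sc (pr (2 * k + 1)) fun n => (s n)⁻¹ * (s n)⁻¹, fun _ => sc_tendsto _,
    fun _ => sc_tendsto _, fun _ => 1, fun _ => one_pos, fun s hs => ⟨h' ⟨_, 0, (add_zero _).symm,
      (eventually_ge_atTop (2 * k)).mono fun n hn => ?_, fun n => by
        simpa [zero_ap] using (h n).le⟩, ?_⟩⟩
  · have a1 : (sc (pr (2 * k + 1)) (fun n => (s n)⁻¹ * (s n)⁻¹) n).rank ≤ n / (2 * k + 1) + 1 := by
      rw [sc, Matrix.smul_eq_diagonal_mul]
      exact (Matrix.rank_mul_le_right _ _).trans (pr_rank _ _)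
    have a2 := Nat.mul_div_le n (2 * k + 1)
    nlinarith
  · funext n
    rw [one_ap, ← decomp (2 * k + 1) n (by omega)]
    refine (Finset.sum_apply _ _ _).trans (Finset.sum_congr rfl fun i _ => ?_)
    have := (hs n).1.ne'
    simp only [mul_ap, sc, smul_mul_smul_comm]
    rw [show s n * ((s n)⁻¹ * (s n)⁻¹) * s n = 1 by field_simp, one_smul]

theorem main [TopologicalSpace (MonoidAlgebra (SeparationQuotient P) (Function.End ℕ))]
    [IsTopologicalRing (MonoidAlgebra (SeparationQuotient P) (Function.End ℕ))]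
    [T2Space (MonoidAlgebra (SeparationQuotient P) (Function.End ℕ))]
    (hc : Continuous (single 1 : SeparationQuotient P →
      MonoidAlgebra (SeparationQuotient P) (Function.End ℕ))) : False := by
  have q := (SeparationQuotient.continuous_mk (X := P)).tendsto 0
  refine noext (G := Function.End ℕ) (fun i k => if k.unpair.1 = i then k.unpair.2 else 0)
    (fun j k => Nat.pair j k) (fun _ => 0) (fun h => absurd (congrFun h 1) Nat.zero_ne_one) (fun i j => ?_)
    one_ne sm (fun V hV => ?_) hc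
  · funext k
    by_cases h : i = j
    · simp [Function.End.mul_def, h, Function.End.one_def]
    · simp [Function.End.mul_def, h, Ne.symm h]
  · obtain ⟨k, a, c, b, h1, h2, h3⟩ := prop _ (q hV)
    refine ⟨k, fun i t => .mk (a i t), fun i t => .mk (c i t), fun t => .mk (b t),
      fun i => q.comp (h1 i), fun i => q.comp (h2 i), h3.mono fun t ht => ⟨ht.1, ?_⟩⟩
    simpa using congrArg SeparationQuotient.mkRingHom ht.2

end Pool.Agent.H.MP_311bfa_al
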